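import Pool.Agent.W979.TE.Defs3

set_option autoImplicit false

open Classical

namespace Pool.Agent.W59.TE3

open Pool.Agent.W715.BC Pool.Agent.W979.TE3

theorem t_B (h1 : S_E1) (hbc : S_BC) (hba : S_BA) (hbs : S_BS) : S_B := by
  intro s q t K M1 ε hs hq ht hK hε
  obtain ⟨M0, hM0, hE⟩ := h1 s q t
  obtain ⟨c1, h1⟩ := hbc s q t K M1 M0 hs hq hK hE
  obtain ⟨c2, h2⟩ := hba s q t K M1 M0 hs hq hK hE
  obtain ⟨c3, h3⟩ := hbs s q t K M1 M0 hs hq hK
  set a1 : ℝ := max c1 0 with ha1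
  set a2 : ℝ := max c2 0 with ha2
  set a3 : ℝ := max c3 0 with ha3
  have a1n : 0 ≤ a1 := le_max_right _ _
  have a2n : 0 ≤ a2 := le_max_right _ _
  have a3n : 0 ≤ a3 := le_max_right _ _
  set ν : ℝ := 1 + 2 * (a1 + a2) / ε with hν
  have hν1 : 1 ≤ ν := by
    rw [hν]
    have : 0 ≤ 2 * (a1 + a2) / ε := by positivity
    linarith
  have hν0 : 0 < ν := by linarith
  have hνe : (a1 + a2) / ν ≤ ε / 2 := by
    rw [div_le_iff₀ hν0, hν]
    have : ε / 2 * (1 + 2 * (a1 + a2) / ε) = ε / 2 + (a1 + a2) := by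
      field_simp
    rw [this]; linarith
  refine ⟨max 1 (max (a3 * (1 + ν)) (2 * a3 * ν / ε)), ?_⟩
  intro A B _ _ _ r D i yf hReg hCD hCA hSB
  set C : ℝ := max 1 (max (a3 * (1 + ν)) (2 * a3 * ν / ε)) with hC
  have hC1 : 1 ≤ C := le_max_left _ _
  have hC2 : a3 * (1 + ν) ≤ C := le_trans (le_max_left _ _) (le_max_right _ _)
  have hC3 : 2 * a3 * ν / ε ≤ C := le_trans (le_max_right _ _) (le_max_right _ _)
  have hD1 : (1 : ℝ) ≤ D := le_trans hC1 hCD
  have hD0 : 0 < D := by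
    have : (0 : ℝ) < D := by linarith
    exact_mod_cast this
  have hDr : (0 : ℝ) < D := by linarith
  have e1 := h1 ν hν0 A B r D i hReg hD0 hSB
  have e2 := h2 ν hν0 A B r D i hReg hD0 hSB
  have e3 := h3 ν hν0 A B r D i yf hReg hD0
  set F1 := Finset.univ.filter (fun z : Cop A B s q => CC r (LT s q t) M1 z ∧
      (M0 : ℝ) + ν / D * ((Xc r (LT s q t) M1 i z.2.1).card : ℝ) <
        (mm r (Xc r (LT s q t) M1 i z.2.1) (z.2.2.1 i) : ℝ)) with hF1
  set F2 := Finset.univ.filter (fun z : Cop A B s q => CC r (LT s q t) M1 z ∧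
      (M0 : ℝ) + ν / D * ((Xa r (LT s q t) M1 i z.2.1).card : ℝ) <
        (mm r (Xa r (LT s q t) M1 i z.2.1) (z.2.2.1 i) : ℝ)) with hF2
  set F3 := Finset.univ.filter (fun z : Cop A B s q => CC r (LT s q t) M1 z ∧
      z.2.2.1 i = yf z.2.1 ∧
      (mm r (Xc r (LT s q t) M1 i z.2.1) (z.2.2.1 i) : ℝ) ≤
        (M0 : ℝ) + ν / D * ((Xc r (LT s q t) M1 i z.2.1).card : ℝ) ∧
      (mm r (Xa r (LT s q t) M1 i z.2.1) (z.2.2.1 i) : ℝ) ≤
        (M0 : ℝ) + ν / D * ((Xa r (LT s q t) M1 i z.2.1).card : ℝ)) with hF3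
  have hsub : Finset.univ.filter (fun z : Cop A B s q => CC r (LT s q t) M1 z ∧
      z.2.2.1 i = yf z.2.1) ⊆ F1 ∪ (F2 ∪ F3) := by
    intro z hz
    rw [Finset.mem_filter] at hz
    rw [Finset.mem_union, Finset.mem_union, hF1, hF2, hF3, Finset.mem_filter, Finset.mem_filter,
      Finset.mem_filter]
    by_cases g1 : (M0 : ℝ) + ν / D * ((Xc r (LT s q t) M1 i z.2.1).card : ℝ) <
        (mm r (Xc r (LT s q t) M1 i z.2.1) (z.2.2.1 i) : ℝ)
    · exact Or.inl ⟨Finset.mem_univ _, hz.2.1, g1⟩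
    · by_cases g2 : (M0 : ℝ) + ν / D * ((Xa r (LT s q t) M1 i z.2.1).card : ℝ) <
        (mm r (Xa r (LT s q t) M1 i z.2.1) (z.2.2.1 i) : ℝ)
      · exact Or.inr (Or.inl ⟨Finset.mem_univ _, hz.2.1, g2⟩)
      · exact Or.inr (Or.inr ⟨Finset.mem_univ _, hz.2.1, hz.2.2, not_lt.1 g1, not_lt.1 g2⟩)
  have hcard : ((Finset.univ.filter (fun z : Cop A B s q => CC r (LT s q t) M1 z ∧
      z.2.2.1 i = yf z.2.1)).card : ℝ) ≤ (F1.card : ℝ) + ((F2.card : ℝ) + (F3.card : ℝ)) := by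
    have g1 := Finset.card_le_card hsub
    have g2 := Finset.card_union_le F1 (F2 ∪ F3)
    have g3 := Finset.card_union_le F2 F3
    have g4 : (Finset.univ.filter (fun z : Cop A B s q => CC r (LT s q t) M1 z ∧
      z.2.2.1 i = yf z.2.1)).card ≤ F1.card + (F2.card + F3.card) := by omega
    exact_mod_cast g4
  have hAn : (0 : ℝ) ≤ (Fintype.card A : ℝ) := Nat.cast_nonneg _
  have hPn : (0 : ℝ) ≤ (Fintype.card A : ℝ) ^ ((s + 1) * q) := by positivity
  have hT0 : (0 : ℝ) ≤ (Fintype.card A : ℝ) * (D : ℝ) ^ (2 * hh s q) := by positivity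
  have f1 : (F1.card : ℝ) ≤ a1 / ν * ((Fintype.card A : ℝ) * (D : ℝ) ^ (2 * hh s q)) := by
    refine e1.trans ?_
    rw [mul_assoc]
    refine mul_le_mul_of_nonneg_right ?_ hT0
    exact div_le_div_of_nonneg_right (le_max_left _ _) hν0.le
  have f2 : (F2.card : ℝ) ≤ a2 / ν * ((Fintype.card A : ℝ) * (D : ℝ) ^ (2 * hh s q)) := by
    refine e2.trans ?_
    rw [mul_assoc]
    refine mul_le_mul_of_nonneg_right ?_ hT0
    exact div_le_div_of_nonneg_right (le_max_left _ _) hν0.le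
  have hD4 : (0 : ℝ) < (D : ℝ) ^ 4 := by positivity
  have f3 : (F3.card : ℝ) ≤ C * (Fintype.card A : ℝ) ^ ((s + 1) * q) +
      ε / 2 * ((Fintype.card A : ℝ) * (D : ℝ) ^ (2 * hh s q)) := by
    have g1 : (F3.card : ℝ) * (D : ℝ) ^ 4 ≤
        (C * (Fintype.card A : ℝ) ^ ((s + 1) * q) +
      ε / 2 * ((Fintype.card A : ℝ) * (D : ℝ) ^ (2 * hh s q))) * (D : ℝ) ^ 4 := by
      refine e3.trans ?_
      rw [add_mul _ _ ((D : ℝ) ^ 4)]
      refine add_le_add ?_ ?_
      · refine mul_le_mul_of_nonneg_right ?_ hD4.le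
        refine mul_le_mul_of_nonneg_right ?_ hPn
        refine le_trans ?_ hC2
        exact mul_le_mul_of_nonneg_right (le_max_left c3 0) (by linarith)
      · have k1 : c3 * ν * (Fintype.card A : ℝ) ^ 2 * (D : ℝ) ^ (2 * hh s q) ≤
            a3 * ν * (Fintype.card A : ℝ) * ((Fintype.card A : ℝ) * (D : ℝ) ^ (2 * hh s q)) := by
          have : c3 * ν * (Fintype.card A : ℝ) ^ 2 * (D : ℝ) ^ (2 * hh s q) =
            c3 * (ν * (Fintype.card A : ℝ) *
              ((Fintype.card A : ℝ) * (D : ℝ) ^ (2 * hh s q))) := by ring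
          rw [this]
          have : a3 * ν * (Fintype.card A : ℝ) * ((Fintype.card A : ℝ) *
            (D : ℝ) ^ (2 * hh s q)) = a3 * (ν * (Fintype.card A : ℝ) *
              ((Fintype.card A : ℝ) * (D : ℝ) ^ (2 * hh s q))) := by ring
          rw [this]
          refine mul_le_mul_of_nonneg_right (le_max_left _ _) ?_
          exact mul_nonneg (mul_nonneg hν0.le hAn) hT0
        have k2 : a3 * ν * (Fintype.card A : ℝ) ≤ ε / 2 * (D : ℝ) ^ 4 := by
          have k3 : a3 * ν ≤ ε / 2 * C := by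
            rw [div_le_iff₀ hε] at hC3
            linarith
          have k4 : C * (Fintype.card A : ℝ) ≤ (D : ℝ) ^ 4 := by
            refine hCA.trans ?_
            exact pow_le_pow_right₀ hD1 (by norm_num)
          calc a3 * ν * (Fintype.card A : ℝ) ≤ ε / 2 * C * (Fintype.card A : ℝ) :=
                mul_le_mul_of_nonneg_right k3 hAn
            _ = ε / 2 * (C * (Fintype.card A : ℝ)) := by ring
            _ ≤ ε / 2 * (D : ℝ) ^ 4 := mul_le_mul_of_nonneg_left k4 (by linarith)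
        refine k1.trans ?_
        calc a3 * ν * (Fintype.card A : ℝ) * ((Fintype.card A : ℝ) * (D : ℝ) ^ (2 * hh s q)) ≤
            ε / 2 * (D : ℝ) ^ 4 * ((Fintype.card A : ℝ) * (D : ℝ) ^ (2 * hh s q)) :=
              mul_le_mul_of_nonneg_right k2 hT0
          _ = _ := by ring
    exact le_of_mul_le_mul_right g1 hD4
  have f12 : a1 / ν * ((Fintype.card A : ℝ) * (D : ℝ) ^ (2 * hh s q)) +
      a2 / ν * ((Fintype.card A : ℝ) * (D : ℝ) ^ (2 * hh s q)) ≤
      ε / 2 * ((Fintype.card A : ℝ) * (D : ℝ) ^ (2 * hh s q)) := by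
    rw [← add_mul, ← add_div]
    exact mul_le_mul_of_nonneg_right hνe hT0
  have : ε * (Fintype.card A : ℝ) * (D : ℝ) ^ (2 * hh s q) =
      ε / 2 * ((Fintype.card A : ℝ) * (D : ℝ) ^ (2 * hh s q)) +
      ε / 2 * ((Fintype.card A : ℝ) * (D : ℝ) ^ (2 * hh s q)) := by ring
  rw [this]
  linarith

end Pool.Agent.W59.TE3
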