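import Pool.Agent.W979.TE.Defs3

set_option autoImplicit false

open Classical

namespace Pool.Agent.W59.TE3

open Pool.Agent.W715.BC Pool.Agent.W979.TE3

theorem Lk_symm {A B : Type} [Fintype B] {r : A → B → Prop} {L : ℕ} {x y : A}
    (h : Lk r L x y) : Lk r L y x := by
  have e : cn r x y = cn r y x := by
    ext b; simp [cn, and_comm]
  obtain ⟨h1, h2, h3⟩ := h
  rw [e] at h2 h3
  exact ⟨h1.symm, h2, h3⟩

theorem mem_Ft_cons {A B : Type} [Fintype A] [Fintype B] {r : A → B → Prop} {L q : ℕ}
    {u a : A} {Q : Fin q → A} (h1 : Lk r L u a) (h2 : ∀ l, Lk r L u (Q l)) :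
    u ∈ Ft r L (Fin.cons a Q : Fin (q + 1) → A) := by
  rw [Ft, Finset.mem_filter]
  refine ⟨Finset.mem_univ _, fun i => ?_⟩
  refine Fin.cases ?_ (fun l => ?_) i
  · simpa using h1
  · simpa using h2 l

theorem fib_opt {A : Type} [Fintype A] {s : ℕ} (T : Fin s → Finset A) (c : A)
    (S : Finset (Option (Fin s) → A)) (h : ∀ u ∈ S, u none = c ∧ ∀ i, u (some i) ∈ T i) :
    S.card ≤ ∏ i, (T i).card := by
  rw [← Fintype.card_piFinset]
  refine Finset.card_le_card_of_injOn (fun u i => u (some i)) ?_ ?_
  · intro u hu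
    rw [Finset.mem_coe, Fintype.mem_piFinset]
    exact (h u hu).2
  · intro u hu v hv e
    funext o
    cases o with
    | none => rw [(h u hu).1, (h v hv).1]
    | some i => exact congrFun e i

theorem cnt_u {A B : Type} [Fintype A] [Fintype B] {s q L M1 : ℕ} (r : A → B → Prop)
    (ρ : Option (Fin s) → Fin q → A) (x : Option (Fin s)) (a : A)
    (S : Finset (Option (Fin s) → A))
    (hS : ∀ u ∈ S, u x = a ∧ (∀ i, Lk r L (u none) (u (some i))) ∧
      (∀ x l, Lk r L (u x) (ρ x l)) ∧
      (∀ i, (Ft r L (Fin.cons (u none) (ρ (some i)) : Fin (q + 1) → A)).card < M1) ∧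
      (∀ i, (Ft r L (Fin.cons (u (some i)) (ρ none) : Fin (q + 1) → A)).card < M1)) :
    S.card ≤ M1 ^ s := by
  cases x with
  | none =>
    rcases S.eq_empty_or_nonempty with h0 | ⟨u0, hu0⟩
    · rw [h0]; simp
    have h0 := hS u0 hu0
    have hb : ∀ i, (Ft r L (Fin.cons a (ρ (some i)) : Fin (q + 1) → A)).card ≤ M1 := by
      intro i
      have := h0.2.2.2.1 i
      rw [h0.1] at this
      exact this.le
    refine (fib_opt (fun i => Ft r L (Fin.cons a (ρ (some i)) : Fin (q + 1) → A)) a S ?_).trans ?_
    · intro u hu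
      have h := hS u hu
      refine ⟨h.1, fun i => ?_⟩
      refine mem_Ft_cons ?_ (h.2.2.1 (some i))
      rw [← h.1]
      exact Lk_symm (h.2.1 i)
    · calc ∏ i : Fin s, (Ft r L (Fin.cons a (ρ (some i)) : Fin (q + 1) → A)).card ≤
          ∏ _i : Fin s, M1 := Finset.prod_le_prod' (fun i _ => hb i)
        _ = M1 ^ s := by simp
  | some i0 =>
    rcases S.eq_empty_or_nonempty with h0 | ⟨u0, hu0⟩
    · rw [h0]; simp
    have h0 := hS u0 hu0
    have hb0 : (Ft r L (Fin.cons a (ρ none) : Fin (q + 1) → A)).card ≤ M1 := by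
      have := h0.2.2.2.2 i0
      rw [h0.1] at this
      exact this.le
    have himg : (S.image (fun u => u none)).card ≤ M1 := by
      refine (Finset.card_le_card ?_).trans hb0
      intro c hc
      rw [Finset.mem_image] at hc
      obtain ⟨u, hu, rfl⟩ := hc
      have h := hS u hu
      refine mem_Ft_cons ?_ (h.2.2.1 none)
      rw [← h.1]
      exact h.2.1 i0
    have hfib : ∀ c ∈ S.image (fun u => u none),
        (S.filter (fun u => u none = c)).card ≤ M1 ^ (s - 1) := by
      intro c hc
      rw [Finset.mem_image] at hc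
      obtain ⟨u1, hu1, hu1c⟩ := hc
      have h1 := hS u1 hu1
      have hb : ∀ i, (Ft r L (Fin.cons c (ρ (some i)) : Fin (q + 1) → A)).card ≤ M1 := by
        intro i
        have := h1.2.2.2.1 i
        have e : u1 none = c := hu1c
        rw [e] at this
        exact this.le
      refine (fib_opt (fun i => if i = i0 then {a} else
        Ft r L (Fin.cons c (ρ (some i)) : Fin (q + 1) → A)) c _ ?_).trans ?_
      · intro u hu
        rw [Finset.mem_filter] at hu
        have h := hS u hu.1
        refine ⟨hu.2, fun i => ?_⟩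
        by_cases hi : i = i0
        · subst hi
          simp [h.1]
        · simp only [hi, if_false]
          refine mem_Ft_cons ?_ (h.2.2.1 (some i))
          rw [← hu.2]
          exact Lk_symm (h.2.1 i)
      · rw [← Finset.mul_prod_erase Finset.univ _ (Finset.mem_univ i0)]
        simp only [if_true, Finset.card_singleton, one_mul]
        calc ∏ i ∈ Finset.univ.erase i0, (if i = i0 then {a} else
            Ft r L (Fin.cons c (ρ (some i)) : Fin (q + 1) → A)).card ≤
            ∏ _i ∈ (Finset.univ : Finset (Fin s)).erase i0, M1 := by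
              refine Finset.prod_le_prod' (fun i hi => ?_)
              have : i ≠ i0 := Finset.ne_of_mem_erase hi
              simp only [this, if_false]
              exact hb i
          _ = M1 ^ (s - 1) := by
              rw [Finset.prod_const, Finset.card_erase_of_mem (Finset.mem_univ _),
                Finset.card_univ, Fintype.card_fin]
    have := Finset.card_le_mul_card_image (f := fun u : Option (Fin s) → A => u none) S
      (M1 ^ (s - 1)) hfib
    refine this.trans ?_
    have hs : 0 < s := lt_of_le_of_lt (Nat.zero_le _) i0.2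
    calc M1 ^ (s - 1) * (S.image (fun u => u none)).card ≤ M1 ^ (s - 1) * M1 :=
          Nat.mul_le_mul_left _ himg
      _ = M1 ^ s := by
          rw [← pow_succ]; congr 1; omega

theorem t_KAP : S_KAP := by
  intro s q L M1 A B _ _ r ρ x a
  set S := Finset.univ.filter (fun z : Cop A B s q => CC r L M1 z ∧ z.2.1 = ρ ∧ z.1 x = a) with hS
  have hmem : ∀ z ∈ S, CC r L M1 z ∧ z.2.1 = ρ ∧ z.1 x = a := by
    intro z hz
    rw [hS, Finset.mem_filter] at hz
    exact hz.2
  have himg : (S.image (fun z => z.1)).card ≤ M1 ^ s := by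
    refine cnt_u (L := L) r ρ x a _ ?_
    intro u hu
    rw [Finset.mem_image] at hu
    obtain ⟨z, hz, rfl⟩ := hu
    obtain ⟨⟨_, _, h1, h2, h3, h4⟩, h5, h6⟩ := hmem z hz
    rw [h5] at h2 h3 h4
    exact ⟨h6, h1, h2, h3, h4⟩
  have hfib : ∀ u ∈ S.image (fun z => z.1), (S.filter (fun z => z.1 = u)).card ≤ L ^ hh s q := by
    intro u hu
    rw [Finset.mem_image] at hu
    obtain ⟨z0, hz0, hzu⟩ := hu
    have hz0u : z0.1 = u := hzu
    obtain ⟨⟨_, _, g1, g2, _, _⟩, g5, _⟩ := hmem z0 hz0
    rw [g5] at g2
    rw [hz0u] at g1 g2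
    have key : (S.filter (fun z => z.1 = u)).card ≤
        ((Fintype.piFinset (fun i : Fin s => cn r (u none) (u (some i)))) ×ˢ
          (Fintype.piFinset (fun x : Option (Fin s) =>
            Fintype.piFinset (fun l : Fin q => cn r (u x) (ρ x l))))).card := by
      refine Finset.card_le_card_of_injOn (fun z => (z.2.2.1, z.2.2.2)) ?_ ?_
      · intro z hz
        rw [Finset.mem_coe, Finset.mem_filter] at hz
        obtain ⟨⟨⟨k1, k2, k3, k4⟩, _⟩, g5, _⟩ := hmem z hz.1
        rw [g5] at k4
        rw [hz.2] at k1 k2 k3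
        rw [Finset.mem_coe, Finset.mem_product, Fintype.mem_piFinset, Fintype.mem_piFinset]
        refine ⟨fun i => ?_, fun x => ?_⟩
        · simp only [cn, Finset.mem_filter, Finset.mem_univ, true_and]
          exact ⟨k1 i, k2 i⟩
        · rw [Fintype.mem_piFinset]
          intro l
          simp only [cn, Finset.mem_filter, Finset.mem_univ, true_and]
          exact ⟨k3 x l, k4 x l⟩
      · intro z hz z' hz' e
        rw [Finset.mem_coe, Finset.mem_filter] at hz hz'
        have e1 := (Prod.mk.inj e).1
        have e2 := (Prod.mk.inj e).2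
        have e3 := (hmem z hz.1).2.1
        have e4 := (hmem z' hz'.1).2.1
        refine Prod.ext (hz.2.trans hz'.2.symm) (Prod.ext (e3.trans e4.symm) (Prod.ext e1 e2))
    refine key.trans ?_
    rw [Finset.card_product, Fintype.card_piFinset, Fintype.card_piFinset]
    have b1 : ∏ i : Fin s, (cn r (u none) (u (some i))).card ≤ L ^ s := by
      calc ∏ i : Fin s, (cn r (u none) (u (some i))).card ≤ ∏ _i : Fin s, L :=
            Finset.prod_le_prod' (fun i _ => (g1 i).2.2.le)
        _ = L ^ s := by simp
    have b2 : ∏ x : Option (Fin s), (Fintype.piFinset (fun l : Fin q => cn r (u x) (ρ x l))).card ≤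
        L ^ ((s + 1) * q) := by
      calc ∏ x : Option (Fin s), (Fintype.piFinset (fun l : Fin q => cn r (u x) (ρ x l))).card ≤
            ∏ _x : Option (Fin s), L ^ q := by
              refine Finset.prod_le_prod' (fun x _ => ?_)
              rw [Fintype.card_piFinset]
              calc ∏ l : Fin q, (cn r (u x) (ρ x l)).card ≤ ∏ _l : Fin q, L :=
                    Finset.prod_le_prod' (fun l _ => (g2 x l).2.2.le)
                _ = L ^ q := by simp
        _ = L ^ ((s + 1) * q) := by
            rw [Finset.prod_const, Finset.card_univ, Fintype.card_option, Fintype.card_fin,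
              ← pow_mul, Nat.mul_comm]
    calc _ ≤ L ^ s * L ^ ((s + 1) * q) := Nat.mul_le_mul b1 b2
      _ = L ^ hh s q := by rw [← pow_add]; rfl
  have := Finset.card_le_mul_card_image (f := fun z : Cop A B s q => z.1) S (L ^ hh s q) hfib
  refine this.trans ?_
  rw [Nat.mul_comm]
  exact Nat.mul_le_mul_right _ himg

theorem t_U_of_KAP (h : S_KAP) : S_U := by
  intro s q L M1 A B _ _ r x uf
  set S := Finset.univ.filter (fun z : Cop A B s q => CC r L M1 z ∧ z.1 x = uf z.2.1) with hS
  have hfib : ∀ ρ ∈ S.image (fun z => z.2.1),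
      (S.filter (fun z => z.2.1 = ρ)).card ≤ M1 ^ s * L ^ hh s q := by
    intro ρ _
    refine (Finset.card_le_card ?_).trans (h s q L M1 A B r ρ x (uf ρ))
    intro z hz
    rw [Finset.mem_filter, hS, Finset.mem_filter] at hz
    obtain ⟨⟨_, h1, h2⟩, h3⟩ := hz
    rw [Finset.mem_filter]
    exact ⟨Finset.mem_univ _, h1, h3, by rw [h2, h3]⟩
  have := Finset.card_le_mul_card_image (f := fun z : Cop A B s q => z.2.1) S _ hfib
  refine this.trans (Nat.mul_le_mul_left _ ?_)
  refine (Finset.card_le_univ _).trans ?_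
  rw [Fintype.card_fun, Fintype.card_fun, Fintype.card_option, Fintype.card_fin, Fintype.card_fin,
    ← pow_mul, Nat.mul_comm]

theorem t_U : S_U := t_U_of_KAP t_KAP

end Pool.Agent.W59.TE3
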