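import Pool.Agent.W957.MF.Stm

/-! MF-CNT of project MF (helper957), by helper59. -/

set_option autoImplicit false

namespace Pool.Agent.W59.MF

open Finset Pool.Agent.W957.MF

theorem gp_mono {z : Conf} {S T : Finset ℕ} (h : T ⊆ S) (hS : GP z S) : GP z T :=
  fun b => (hS b).mono (by exact_mod_cast h)

theorem occ_mono {z : Conf} {S T : Finset ℕ} (h : T ⊆ S) {k : ℕ} {σ : Equiv.Perm (Fin k)}
    (hT : Occ z T σ) : Occ z S σ := by
  obtain ⟨f, h1, h2⟩ := hT
  exact ⟨f, fun i => h (h1 i), h2⟩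

theorem pat_uniq (h4 : S_PAT) {z : Conf} {S : Finset ℕ} {k : ℕ} (hk : S.card = k)
    (hS : GP z S) {σ σ' : Equiv.Perm (Fin k)} (h : Occ z S σ) (h' : Occ z S σ') : σ = σ' := by
  subst hk
  obtain ⟨σ0, -, h1, -⟩ := h4 z S hS
  rw [h1 σ h, h1 σ' h']

theorem occ_one {z : Conf} {T : Finset ℕ} (σ : Equiv.Perm (Fin 1)) :
    Occ z T σ ↔ T.Nonempty := by
  constructor
  · rintro ⟨f, h1, -⟩
    exact ⟨f 0, h1 0⟩
  · rintro ⟨a, ha⟩
    refine ⟨fun _ => a, fun _ => ha, ?_, ?_⟩
    · intro i j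
      have := Subsingleton.elim i j
      subst this
      simp
    · intro i j
      have := Subsingleton.elim i j
      subst this
      simp

theorem g_one {z : Conf} {S : Finset ℕ} (hS : S.Nonempty) (σ : Equiv.Perm (Fin 1)) :
    g z S σ = -1 := by
  classical
  have h1 : g z S σ = ∑ T ∈ S.powerset.filter (fun T => T.Nonempty), (-1 : ℤ) ^ T.card := by
    unfold g
    apply sum_congr _ (fun _ _ => rfl)
    ext T
    simp only [mem_filter, occ_one]
  have h2 : ∑ T ∈ S.powerset, (-1 : ℤ) ^ T.card = 0 := by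
    have h3 := Finset.sum_powerset_neg_one_pow_card_of_nonempty hS
    exact_mod_cast h3
  have h4 : S.powerset.filter (fun T => ¬ T.Nonempty) = {∅} := by
    ext T
    simp only [mem_filter, mem_powerset, not_nonempty_iff_eq_empty, mem_singleton]
    constructor
    · exact fun h => h.2
    · rintro rfl
      exact ⟨empty_subset _, rfl⟩
  have h5 := sum_filter_add_sum_filter_not S.powerset (fun T => T.Nonempty)
    (fun T => (-1 : ℤ) ^ T.card)
  rw [h4, sum_singleton, card_empty, pow_zero, h2] at h5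
  rw [h1]
  omega

theorem t_CNT (h1 : S_W) (h2 : S_PIN) (h3 : S_NF) (h4 : S_PAT) : S_CNT := by
  classical
  intro C B hBdd z n Q e hpin hn hC
  have hgp := hpin.gp
  have hW := h1 z (Icc 1 n) hgp
  have hcard : (Icc 1 n).card = n := by simp
  rw [hcard] at hW
  -- the main fact
  have hmain : ∀ k, 2 ≤ k → ∀ σ : Equiv.Perm (Fin k), g z (Icc 1 n) σ ≠ 0 →
      k ≤ n ∧ Occ z (Icc 1 k) σ ∧ |g z (Icc 1 n) σ| ≤ 1 ∧ |mu k σ| ≤ B := by
    intro k hk σ hg
    have hp := h2 z n Q e hpin hn k σ hk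
    have hnf := h3 (FI z n σ) n hn (by
      rintro s e' (⟨a, b, T, hT, hT2, -⟩ | ⟨a, b, c, -⟩)
      · obtain ⟨t, ht⟩ := hT
        have := hT2 t ht
        exact ⟨by omega, a, b⟩
      · exact ⟨a, b, c⟩)
    have hex : ∃ e', FI z n σ 1 e' := by
      by_contra hcon
      push Not at hcon
      have := hnf.2.1 hcon
      rw [hp, this] at hg
      simp at hg
    obtain ⟨e', he'⟩ := hex
    rcases he' with ⟨-, -, T, ⟨t, ht⟩, hT2, -⟩ | ⟨-, h5, h6, h7, h8⟩
    · have := hT2 t ht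
      omega
    · have hek : e' = k := by
        simpa using h7
      subst hek
      refine ⟨h6, h8, ?_, ?_⟩
      · rw [hp, abs_neg]
        exact hnf.1
      · refine hBdd e' σ (by omega) (hC e' σ (occ_mono ?_ h8))
        exact Icc_subset_Icc_right h6
  -- bound for one k
  have hk : ∀ k ∈ Icc 2 n, |∑ σ : Equiv.Perm (Fin k), mu k σ * g z (Icc 1 n) σ| ≤
      if GN z n k then (B : ℤ) else 0 := by
    intro k hk
    rw [mem_Icc] at hk
    by_cases hGN : ∃ σ : Equiv.Perm (Fin k), g z (Icc 1 n) σ ≠ 0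
    · obtain ⟨σ0, h0⟩ := hGN
      have hm := hmain k hk.1 σ0 h0
      have hGN' : GN z n k := ⟨σ0, hm.2.1, h0⟩
      rw [if_pos hGN', sum_eq_single σ0]
      · rw [abs_mul]
        calc |mu k σ0| * |g z (Icc 1 n) σ0| ≤ B * 1 :=
              mul_le_mul hm.2.2.2 hm.2.2.1 (abs_nonneg _) (by positivity)
          _ = B := mul_one _
      · intro σ _ hne
        by_contra hcon
        have hg : g z (Icc 1 n) σ ≠ 0 := fun h => hcon (by rw [h, mul_zero])
        have hm2 := hmain k hk.1 σ hg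
        exact hne (pat_uniq h4 (by simp) (gp_mono (Icc_subset_Icc_right hk.2) hgp)
          hm2.2.1 hm.2.1)
      · intro h
        exact absurd (mem_univ _) h
    · push Not at hGN
      have : ∑ σ : Equiv.Perm (Fin k), mu k σ * g z (Icc 1 n) σ = 0 :=
        sum_eq_zero fun σ _ => by rw [hGN σ, mul_zero]
      rw [this, abs_zero]
      split_ifs
      · positivity
      · exact le_rfl
  -- k = 1
  have hsplit : Icc 1 n = insert 1 (Icc 2 n) := by
    ext a
    simp only [mem_Icc, mem_insert]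
    omega
  rw [hsplit, sum_insert (by simp)] at hW
  rw [← hsplit] at hW
  have hone : ∑ σ : Equiv.Perm (Fin 1), mu 1 σ * g z (Icc 1 n) σ = -1 := by
    have : ∀ σ : Equiv.Perm (Fin 1), mu 1 σ * g z (Icc 1 n) σ = -1 := by
      intro σ
      rw [g_one (by simpa using hn), mu]
      simp
    rw [sum_congr rfl (fun σ _ => this σ)]
    simp
  rw [hone] at hW
  have hfin : (n : ℤ) - 1 ≤ ∑ k ∈ Icc 2 n, if GN z n k then (B : ℤ) else 0 := by
    calc (n : ℤ) - 1 = - ∑ k ∈ Icc 2 n, ∑ σ : Equiv.Perm (Fin k), mu k σ * g z (Icc 1 n) σ := by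
          linarith
      _ ≤ |∑ k ∈ Icc 2 n, ∑ σ : Equiv.Perm (Fin k), mu k σ * g z (Icc 1 n) σ| := neg_le_abs _
      _ ≤ ∑ k ∈ Icc 2 n, |∑ σ : Equiv.Perm (Fin k), mu k σ * g z (Icc 1 n) σ| :=
          abs_sum_le_sum_abs _ _
      _ ≤ _ := sum_le_sum hk
  rw [← sum_filter, sum_const, nsmul_eq_mul] at hfin
  have hfin2 : (n : ℤ) ≤ 1 + B * ((Icc 2 n).filter (fun l => GN z n l)).card := by
    linarith
  convert (by exact_mod_cast hfin2 : n ≤ 1 + B * ((Icc 2 n).filter (fun l => GN z n l)).card)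

end Pool.Agent.W59.MF
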