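import Pool.Agent.W957.MF.Stm

/-! MF-WORDS of project MF (helper957), by helper59. -/

set_option autoImplicit false

namespace Pool.Agent.W59.MF

open Finset Pool.Agent.W957.MF

theorem t_WORDS : S_WORDS := by
  classical
  intro L B M1 hB hex hmono hbord
  -- step 1
  have h1 : ∀ M' : ℕ, ∃ D r, 1 ≤ r ∧ r < 2 * B ∧ L M' D ∧ Per r M' D := by
    intro M'
    set T := M' + 1 + M1 with hT
    set M := 2 * B * T with hM
    have hMT : T ≤ M := by
      rw [hM]
      have : 1 * T ≤ 2 * B * T := Nat.mul_le_mul_right _ (by omega)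
      omega
    obtain ⟨D, hD⟩ := hex M
    have hc := hbord M D (by omega) hD
    set X := (range M).filter (fun b => ∀ k, k < b → D k = D (M - b + k)) with hX
    have hXc : 2 * T ≤ X.card := by
      have h2 : B * (2 * T) ≤ B * X.card := by
        calc B * (2 * T) = M := by rw [hM]; ring
          _ ≤ _ := hc
      exact Nat.le_of_mul_le_mul_left h2 (by omega)
    set X' := X.filter (fun b => M' ≤ b) with hX'
    have hX'c : T < X'.card := by
      have h3 : (X.filter (fun b => ¬ M' ≤ b)).card ≤ M' := by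
        calc (X.filter (fun b => ¬ M' ≤ b)).card ≤ (range M').card := by
              apply card_le_card
              intro b hb
              simp only [mem_filter, mem_range] at hb ⊢
              omega
          _ = M' := card_range _
      have h4 : X'.card + (X.filter (fun b => ¬ M' ≤ b)).card = X.card := by
        rw [hX']
        convert card_filter_add_card_filter_not (s := X) (fun b => M' ≤ b)
      omega
    have hmap : ∀ b ∈ X', b / (2 * B) ∈ range T := by
      intro b hb
      simp only [hX', hX, mem_filter, mem_range] at hb ⊢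
      rw [Nat.div_lt_iff_lt_mul (by omega)]
      have : b < 2 * B * T := hb.1.1
      rw [mul_comm T]
      exact this
    obtain ⟨b1, hb1, b2, hb2, hne, heq⟩ :=
      exists_ne_map_eq_of_card_lt_of_maps_to (by rw [card_range]; exact hX'c) hmap
    -- order
    have key : ∀ b ∈ X', ∀ b' ∈ X', b < b' → b / (2 * B) = b' / (2 * B) →
        ∃ D r, 1 ≤ r ∧ r < 2 * B ∧ L M' D ∧ Per r M' D := by
      intro b hb b' hb' hlt he
      simp only [hX', hX, mem_filter, mem_range] at hb hb'
      refine ⟨D, b' - b, by omega, ?_, hmono M M' D (by omega) hD, ?_⟩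
      · have e1 := Nat.div_add_mod b (2 * B)
        have e2 := Nat.div_add_mod b' (2 * B)
        have e3 := Nat.mod_lt b' (y := 2 * B) (by omega)
        rw [he] at e1
        omega
      · intro k hk
        have e1 := hb'.1.2 (k + (b' - b)) (by omega)
        have e2 := hb.1.2 k (by omega)
        rw [e1, e2]
        congr 1
        omega
    rcases lt_or_gt_of_ne hne with h | h
    · exact key b1 hb1 b2 hb2 h heq
    · exact key b2 hb2 b1 hb1 h heq.symm
  -- step 2
  have hmonoP : ∀ r M M' D, M' ≤ M → Per r M D → Per r M' D :=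
    fun r M M' D hle h k hk => h k (by omega)
  have h2 : ∃ r, 1 ≤ r ∧ ∀ M, ∃ D, L M D ∧ Per r M D := by
    by_contra hcon
    push Not at hcon
    have h3 : ∀ r, ∃ M, 1 ≤ r → ∀ D, L M D → ¬ Per r M D := by
      intro r
      by_cases hr : 1 ≤ r
      · obtain ⟨M, hM⟩ := hcon r hr
        exact ⟨M, fun _ => hM⟩
      · exact ⟨0, fun h => absurd h hr⟩
    choose Mr hMr using h3
    obtain ⟨D, r, hr1, hr2, hL, hP⟩ := h1 ((range (2 * B)).sup Mr)
    have hle : Mr r ≤ (range (2 * B)).sup Mr := le_sup (mem_range.2 hr2)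
    exact hMr r hr1 D (hmono _ _ D hle hL) (hmonoP _ _ _ D hle hP)
  -- step 3
  have hfind := Nat.find_spec h2
  refine ⟨Nat.find h2, ?_⟩
  have h4 : ∀ r, ∃ M, 1 ≤ r → r < Nat.find h2 → ∀ D, L M D → ¬ Per r M D := by
    intro r
    by_cases hr : 1 ≤ r ∧ r < Nat.find h2
    · have h5 := Nat.find_min h2 hr.2
      push Not at h5
      obtain ⟨M, hM⟩ := h5 hr.1
      exact ⟨M, fun _ _ => hM⟩
    · exact ⟨0, fun h h' => absurd ⟨h, h'⟩ hr⟩
  choose Mr hMr using h4
  refine ⟨(range (Nat.find h2)).sup Mr, hfind.1, hfind.2, ?_⟩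
  intro r D hr1 hr2 hL hP
  have hle : Mr r ≤ (range (Nat.find h2)).sup Mr := le_sup (mem_range.2 hr2)
  exact hMr r hr1 hr2 D (hmono _ _ D hle hL) (hmonoP _ _ _ D hle hP)

end Pool.Agent.W59.MF
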